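import Pool.Agent.Helper26.WD.Final

/-!
# A non-trivial knot with a Whitehead double whose HOMFLY degree is not `2 f + 2`

The definitions are in `Pool.Agent.Helper26.WD.Defs`.
-/

open Pool.Agent.Helper26.WD Piece

/-- The HOMFLY polynomial and the bracket which defines the Kauffman polynomial exist, and there are
a non-trivial knot `K` and a Whitehead double `W` of `K` such that the largest exponent `p` of `m`
in the HOMFLY polynomial of `W` and the largest exponent `f` of `z` in the Kauffman polynomial of
`K` satisfy `p > 2 f + 2`. -/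
theorem Pool.Agent.Results.MP_fd50bc_gt.Counterexample.result :
    (∃ P, IsHomfly P) ∧ (∃ B, IsKauffman B) ∧
    ∃ K W : List (Piece Bool), IsKnot K ∧ ¬ Isotopic K [cup 0 true, cap 0] ∧
      IsWhiteheadDouble K W ∧ IsKnot W ∧
      ∀ (P : List (Piece Bool) → LaurentPolynomial (LaurentPolynomial ℤ))
        (B : List (Piece Unit) → LaurentPolynomial (LaurentPolynomial ℤ)),
        IsHomfly P → IsKauffman B →
          ∃ p f : ℤ, IsMaxExp (P W) p ∧ IsMaxExp (kauffmanF B K) f ∧ 2 * f + 2 < p :=
  ⟨exists_homfly, exists_kauffman, counterexample⟩
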